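import Pool.Agent.Q96.TZ.Base
import Pool.Agent.Y235.JC.P6

/-!
# Trapezoidal pairs with a complete intersection generic fibre

Conditions 1, 4, 5 of the problem force the bracket to vanish as soon as the field of rational
functions is generated over the field of one component by the other component and further functions
which satisfy the equations of a smooth weighted complete intersection curve with constant leading
forms and separated points at infinity.
-/

set_option autoImplicit false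

namespace Pool.Agent.Results.MP_2d59ee_ag.CompleteIntersectionFibre

open MvPolynomial

/-- Let `a, b ≥ 2` be coprime, let `a` divide `m, n > 0` and let `F, G` be complex polynomials whose
Newton polygons are the trapezoids `T_{m,n}` and `T_{bm/a,bn/a}` and whose bracket is constant.
Let `P, Q` be `F, G` in one of the two orders. Suppose that there are rational functions
`z_1, …, z_r` with `ℂ(x, y) = ℂ(P, Q, z_1, …, z_r)` and polynomials `Φ_1, …, Φ_r` over `ℂ[P]` in
variables `V, Z_1, …, Z_r` with `Φ_i(Q, z_1, …, z_r) = 0` such that, for suitable positive integral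
weights `w` of the variables,
* `Φ_i` is `s_i(P)` times a weighted homogeneous polynomial `Φ0_i` with complex coefficients plus
  terms of smaller weight, where `s_i ≠ 0`,
* the common zeros of the `Φ0_i` on `V = 0` are zero, and the common zeros of the `Φ0_i` and of
  `det (∂ Φ0_i / ∂ Z_j)` satisfy `V = 0` (the points at infinity are distinct),
* over the field `ℂ(P)`, the `Φ_i` and the `r × r` minors of their Jacobian matrix generate the unit
  ideal (the affine curve is smooth).
Then `[F, G] = 0`. -/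
theorem result (a b m n : ℕ) (hm : 0 < m) (hn : 0 < n) (ham : a ∣ m) (han : a ∣ n)
    (hab : Nat.gcd a b = 1) (ha : 2 ≤ a) (hb : 2 ≤ b)
    (F G : MvPolynomial (Fin 2) ℂ)
    (h1 : convexHull ℝ (insert ((0:ℝ), (0:ℝ))
        ((fun d : Fin 2 →₀ ℕ => ((d 0 : ℝ), (d 1 : ℝ))) '' (↑F.support : Set (Fin 2 →₀ ℕ))))
        = {p : ℝ × ℝ | 0 ≤ p.2 ∧ p.2 ≤ (n : ℝ) ∧ 0 ≤ p.1 ∧ p.1 ≤ (m : ℝ) + (n : ℝ) - p.2})
    (h4 : convexHull ℝ (insert ((0:ℝ), (0:ℝ))
        ((fun d : Fin 2 →₀ ℕ => ((d 0 : ℝ), (d 1 : ℝ))) '' (↑G.support : Set (Fin 2 →₀ ℕ))))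
        = {p : ℝ × ℝ | 0 ≤ p.2 ∧ p.2 ≤ ((b * n / a : ℕ) : ℝ) ∧ 0 ≤ p.1 ∧
            p.1 ≤ ((b * m / a : ℕ) : ℝ) + ((b * n / a : ℕ) : ℝ) - p.2})
    (h5 : ∃ c : ℂ, pderiv 0 F * pderiv 1 G - pderiv 1 F * pderiv 0 G = C c)
    (P Q : MvPolynomial (Fin 2) ℂ) (hPQ : (P = F ∧ Q = G) ∨ (P = G ∧ Q = F))
    (r : ℕ) (z : Fin r → FractionRing (MvPolynomial (Fin 2) ℂ))
    (hgen : IntermediateField.adjoin ℂ
      ({algebraMap (MvPolynomial (Fin 2) ℂ) (FractionRing (MvPolynomial (Fin 2) ℂ)) P,
        algebraMap (MvPolynomial (Fin 2) ℂ) (FractionRing (MvPolynomial (Fin 2) ℂ)) Q} ∪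
        Set.range z) = ⊤)
    (Φ : Fin r → MvPolynomial (Option (Fin r)) (Polynomial ℂ))
    (hz : ∀ i, eval₂ ((algebraMap (MvPolynomial (Fin 2) ℂ)
        (FractionRing (MvPolynomial (Fin 2) ℂ))).comp (Polynomial.eval₂RingHom C P))
      (fun o => o.elim
        (algebraMap (MvPolynomial (Fin 2) ℂ) (FractionRing (MvPolynomial (Fin 2) ℂ)) Q) z)
      (Φ i) = 0)
    (w : Option (Fin r) → ℕ) (hw : ∀ o, 0 < w o) (d : Fin r → ℕ)
    (Φ0 : Fin r → MvPolynomial (Option (Fin r)) ℂ)
    (hΦ0 : ∀ i, IsWeightedHomogeneous w (Φ0 i) (d i))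
    (s : Fin r → Polynomial ℂ) (hs : ∀ i, s i ≠ 0)
    (htop : ∀ i, ∀ e ∈ (Φ i - C (s i) * map Polynomial.C (Φ0 i)).support,
      Finsupp.weight w e < d i)
    (hinf : ∀ j, ∃ N : ℕ, (X (some j) : MvPolynomial (Option (Fin r)) ℂ) ^ N ∈
      Ideal.span (insert (X none) (Set.range Φ0)))
    (hsep : ∃ N : ℕ, (X none : MvPolynomial (Option (Fin r)) ℂ) ^ N ∈
      Ideal.span (insert (Matrix.det (Matrix.of fun i j => pderiv (some j) (Φ0 i)))
        (Set.range Φ0)))
    (hsmooth : ∃ t : Polynomial ℂ, t ≠ 0 ∧ (C t : MvPolynomial (Option (Fin r)) (Polynomial ℂ)) ∈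
      Ideal.span (Set.range Φ ∪ Set.range fun e : Fin r → Option (Fin r) =>
        Matrix.det (Matrix.of fun i j => pderiv (e j) (Φ i)))) :
    pderiv 0 F * pderiv 1 G - pderiv 1 F * pderiv 0 G = 0 := by
  obtain ⟨c, hc⟩ := h5
  by_cases hc0 : c = 0
  · rw [hc, hc0, map_zero]
  exfalso
  have hopt : ∀ (u : MvPolynomial (Option (Fin r)) ℂ),
      Set.range (fun o : Option (Fin r) => o.elim u Φ0) = insert u (Set.range Φ0) := by
    intro u
    ext x
    constructor
    · rintro ⟨o, rfl⟩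
      cases o with
      | none => exact Set.mem_insert _ _
      | some j => exact Set.mem_insert_of_mem _ ⟨j, rfl⟩
    · rintro (rfl | ⟨j, rfl⟩)
      · exact ⟨none, rfl⟩
      · exact ⟨some j, rfl⟩
  let D : Pool.Agent.Y235.JC.CI ℂ r :=
    { w := w
      hw := hw
      d := d
      Φ := Φ
      Φ0 := Φ0
      c := s
      hc := hs
      hΦ0 := hΦ0
      htop := by
        intro i e he
        have := htop i e he
        omega
      h2 := by
        intro j
        rw [hopt]
        exact hinf j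
      h3 := by
        rw [hopt]
        exact hsep
      h4 := hsmooth }
  have key : ∀ i : Fin 2, ∃ g : MvPolynomial (Fin 2) ℂ, aeval ![F, G] g = X i := by
    have hrg : ∀ A B : MvPolynomial (Fin 2) ℂ, Set.range (fun j : Fin 2 =>
        algebraMap (MvPolynomial (Fin 2) ℂ) (FractionRing (MvPolynomial (Fin 2) ℂ))
          ((![A, B] : Fin 2 → MvPolynomial (Fin 2) ℂ) j)) =
        {algebraMap (MvPolynomial (Fin 2) ℂ) (FractionRing (MvPolynomial (Fin 2) ℂ)) A,
          algebraMap (MvPolynomial (Fin 2) ℂ) (FractionRing (MvPolynomial (Fin 2) ℂ)) B} := by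
      intro A B
      ext x
      simp only [Set.mem_range, Fin.exists_fin_two, Set.mem_insert_iff, Set.mem_singleton_iff,
        Matrix.cons_val_zero, Matrix.cons_val_one]
      rw [eq_comm (a := x), eq_comm (a := x)]
    rcases hPQ with ⟨rfl, rfl⟩ | ⟨rfl, rfl⟩
    · obtain ⟨g, hg, -⟩ := (Pool.Agent.Y235.JC.CI_field ![P, Q]
        (Pool.Agent.Q96.TZ.det_unit hc0 hc) D z hz).2 (by rw [hrg]; exact hgen)
      exact fun i => ⟨g i, hg i⟩
    · have hc' : pderiv 0 P * pderiv 1 Q - pderiv 1 P * pderiv 0 Q = C (-c) := by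
        rw [map_neg, ← hc]
        ring
      obtain ⟨g, hg, -⟩ := (Pool.Agent.Y235.JC.CI_field ![P, Q]
        (Pool.Agent.Q96.TZ.det_unit (neg_ne_zero.2 hc0) hc') D z hz).2 (by rw [hrg]; exact hgen)
      intro i
      refine ⟨aeval ![X 1, X 0] (g i), ?_⟩
      rw [← hg i]
      have h6 : (aeval ![Q, P] : MvPolynomial (Fin 2) ℂ →ₐ[ℂ] MvPolynomial (Fin 2) ℂ).comp
          (aeval ![X 1, X 0]) = aeval ![P, Q] := by
        apply MvPolynomial.algHom_ext
        intro j
        fin_cases j <;> simp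
      exact congrArg (fun f => f (g i)) h6
  choose F' hF' using key
  exact Pool.Agent.Q96.TZ.not_gen a b m n hm hn ham han hab ha hb F G h1 h4 hc0 hc F' hF'

end Pool.Agent.Results.MP_2d59ee_ag.CompleteIntersectionFibre
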