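import Pool.Agent.Q96.TZ.Base
import Pool.Agent.H928R2.FolMain

/-!
# Trapezoidal pairs preserving a foliation

Conditions 1, 4, 5 of the problem force the bracket to vanish as soon as the map `(F, G)`, or its
composition with a further map with nonzero constant Jacobian determinant, preserves a polynomial
foliation of the plane.
-/

set_option autoImplicit false

namespace Pool.Agent.Results.MP_2d59ee_ag.PreservedFoliation

open MvPolynomial

/-- Let `a, b ≥ 2` be coprime, let `a` divide `m, n > 0` and let `F, G` be complex polynomials whose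
Newton polygons are the trapezoids `T_{m,n}` and `T_{bm/a,bn/a}` and whose bracket is constant.
Let `H = (H₀, H₁)` be a polynomial map with nonzero constant bracket (for instance the identity) and
let `P, Q` be polynomials, not both zero, such that the pullback of the form `P dx + Q dy` under the
map `(F, G) ∘ H` is proportional to `P dx + Q dy`. Then `[F, G] = 0`. -/
theorem result (a b m n : ℕ) (hm : 0 < m) (hn : 0 < n) (ham : a ∣ m) (han : a ∣ n)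
    (hab : Nat.gcd a b = 1) (ha : 2 ≤ a) (hb : 2 ≤ b)
    (F G : MvPolynomial (Fin 2) ℂ)
    (h1 : convexHull ℝ (insert ((0:ℝ), (0:ℝ))
        ((fun d : Fin 2 →₀ ℕ => ((d 0 : ℝ), (d 1 : ℝ))) '' (↑F.support : Set (Fin 2 →₀ ℕ))))
        = {p : ℝ × ℝ | 0 ≤ p.2 ∧ p.2 ≤ (n : ℝ) ∧ 0 ≤ p.1 ∧ p.1 ≤ (m : ℝ) + (n : ℝ) - p.2})
    (h4 : convexHull ℝ (insert ((0:ℝ), (0:ℝ))
        ((fun d : Fin 2 →₀ ℕ => ((d 0 : ℝ), (d 1 : ℝ))) '' (↑G.support : Set (Fin 2 →₀ ℕ))))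
        = {p : ℝ × ℝ | 0 ≤ p.2 ∧ p.2 ≤ ((b * n / a : ℕ) : ℝ) ∧ 0 ≤ p.1 ∧
            p.1 ≤ ((b * m / a : ℕ) : ℝ) + ((b * n / a : ℕ) : ℝ) - p.2})
    (h5 : ∃ c : ℂ, pderiv 0 F * pderiv 1 G - pderiv 1 F * pderiv 0 G = C c)
    (H₀ H₁ : MvPolynomial (Fin 2) ℂ) (d : ℂ) (hd : d ≠ 0)
    (hH : pderiv 0 H₀ * pderiv 1 H₁ - pderiv 1 H₀ * pderiv 0 H₁ = C d)
    (F₁ G₁ : MvPolynomial (Fin 2) ℂ) (hF₁ : F₁ = aeval ![H₀, H₁] F) (hG₁ : G₁ = aeval ![H₀, H₁] G)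
    (P Q : MvPolynomial (Fin 2) ℂ) (hPQ : P ≠ 0 ∨ Q ≠ 0)
    (hinv : (aeval ![F₁, G₁] P * pderiv 0 F₁ + aeval ![F₁, G₁] Q * pderiv 0 G₁) * Q =
      (aeval ![F₁, G₁] P * pderiv 1 F₁ + aeval ![F₁, G₁] Q * pderiv 1 G₁) * P) :
    pderiv 0 F * pderiv 1 G - pderiv 1 F * pderiv 0 G = 0 := by
  obtain ⟨c, hc⟩ := h5
  by_cases hc0 : c = 0
  · rw [hc, hc0, map_zero]
  exfalso
  obtain ⟨F', hF', -⟩ := Pool.Agent.H928R2.Pen.foliation_comp ![F, G] ![H₀, H₁]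
    (Pool.Agent.Q96.TZ.det_unit hc0 hc) (Pool.Agent.Q96.TZ.det_unit hd hH) ![F₁, G₁]
    (by
      intro i
      fin_cases i
      · exact hF₁
      · exact hG₁) P Q hPQ hinv
  exact Pool.Agent.Q96.TZ.not_gen a b m n hm hn ham han hab ha hb F G h1 h4 hc0 hc F' hF'

end Pool.Agent.Results.MP_2d59ee_ag.PreservedFoliation
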