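import Pool.Agent.Q96.TZ.Base
import Pool.Agent.H922R2.L12

/-!
# Trapezoidal pairs whose non-properness curve has a symmetry of infinite order

Conditions 1, 4, 5 of the problem force the bracket to vanish as soon as the plane curve outside of
which the map `(F, G)` is finite is preserved by a polynomial automorphism of infinite order of the
target plane.
-/

set_option autoImplicit false

namespace Pool.Agent.Results.MP_2d59ee_ag.SymmetricNonProperness

open MvPolynomial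

/-- Let `a, b ≥ 2` be coprime, let `a` divide `m, n > 0` and let `F, G` be complex polynomials whose
Newton polygons are the trapezoids `T_{m,n}` and `T_{bm/a,bn/a}` and whose bracket is constant.
Let `q ≠ 0` be a polynomial in two variables such that `q(F, G) ^ N * x` and `q(F, G) ^ N * y` are
integral over `ℂ[F, G]` for some `N` (that is, `(F, G)` is finite over the complement of the curve
`q = 0`), and suppose that some automorphism `ψ` of `ℂ[x, y]` of infinite order maps `q` to a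
constant multiple of `q`. Then `[F, G] = 0`. -/
theorem result (a b m n : ℕ) (hm : 0 < m) (hn : 0 < n) (ham : a ∣ m) (han : a ∣ n)
    (hab : Nat.gcd a b = 1) (ha : 2 ≤ a) (hb : 2 ≤ b)
    (F G : MvPolynomial (Fin 2) ℂ)
    (h1 : convexHull ℝ (insert ((0:ℝ), (0:ℝ))
        ((fun d : Fin 2 →₀ ℕ => ((d 0 : ℝ), (d 1 : ℝ))) '' (↑F.support : Set (Fin 2 →₀ ℕ))))
        = {p : ℝ × ℝ | 0 ≤ p.2 ∧ p.2 ≤ (n : ℝ) ∧ 0 ≤ p.1 ∧ p.1 ≤ (m : ℝ) + (n : ℝ) - p.2})
    (h4 : convexHull ℝ (insert ((0:ℝ), (0:ℝ))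
        ((fun d : Fin 2 →₀ ℕ => ((d 0 : ℝ), (d 1 : ℝ))) '' (↑G.support : Set (Fin 2 →₀ ℕ))))
        = {p : ℝ × ℝ | 0 ≤ p.2 ∧ p.2 ≤ ((b * n / a : ℕ) : ℝ) ∧ 0 ≤ p.1 ∧
            p.1 ≤ ((b * m / a : ℕ) : ℝ) + ((b * n / a : ℕ) : ℝ) - p.2})
    (h5 : ∃ c : ℂ, pderiv 0 F * pderiv 1 G - pderiv 1 F * pderiv 0 G = C c)
    (q : MvPolynomial (Fin 2) ℂ) (hq0 : q ≠ 0)
    (hint : ∀ i : Fin 2, ∃ N : ℕ, IsIntegral
      (Algebra.adjoin ℂ ({F, G} : Set (MvPolynomial (Fin 2) ℂ))) (aeval ![F, G] q ^ N * X i))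
    (ψ : MvPolynomial (Fin 2) ℂ ≃ₐ[ℂ] MvPolynomial (Fin 2) ℂ)
    (hinf : ∀ k : ℕ, 0 < k → ψ ^ k ≠ 1) (t : ℂ) (hq : ψ q = C t * q) :
    pderiv 0 F * pderiv 1 G - pderiv 1 F * pderiv 0 G = 0 := by
  obtain ⟨c, hc⟩ := h5
  by_cases hc0 : c = 0
  · rw [hc, hc0, map_zero]
  exfalso
  have ht : t ≠ 0 := by
    rintro rfl
    rw [map_zero, zero_mul] at hq
    exact hq0 (ψ.injective (by rw [hq, map_zero]))
  have hl : Associated (ψ q) q := by
    refine Associated.symm ⟨(isUnit_iff_ne_zero.2 ht |>.map (C : ℂ →+* MvPolynomial (Fin 2) ℂ)).unit, ?_⟩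
    rw [IsUnit.unit_spec, hq, mul_comm]
  have hr : Set.range ![F, G] = ({F, G} : Set (MvPolynomial (Fin 2) ℂ)) := by
    ext x
    simp only [Set.mem_range, Fin.exists_fin_two, Set.mem_insert_iff, Set.mem_singleton_iff,
      Matrix.cons_val_zero, Matrix.cons_val_one]
    rw [eq_comm (a := F), eq_comm (a := G)]
  obtain ⟨F', hF', -⟩ := Pool.Agent.H922R2.cprime_any ![F, G]
    (Pool.Agent.Q96.TZ.det_unit hc0 hc) q hq0 (by rw [hr]; exact hint) ψ hinf hl
  exact Pool.Agent.Q96.TZ.not_gen a b m n hm hn ham han hab ha hb F G h1 h4 hc0 hc F' hF'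

end Pool.Agent.Results.MP_2d59ee_ag.SymmetricNonProperness
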