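import Pool.Agent.Q96.TZ.Base
import Pool.Agent.H922R2.L12
import Pool.Agent.H928R2.TriM5

/-!
# Trapezoidal pairs whose branch curve is invariant under a linear vector field

Conditions 1, 4, 5 of the problem force the bracket to vanish as soon as the branch curve of the
normalization of `ℂ[F, G]` in `ℂ(x, y)` is, in suitable polynomial coordinates of the target plane,
invariant under a nonzero vector field `a(x) ∂_x + (b(x) y + c(x)) ∂_y`.
-/

set_option autoImplicit false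

namespace Pool.Agent.Results.MP_2d59ee_ag.TriangularBranchCurve

open MvPolynomial

/-- Let `a, b ≥ 2` be coprime, let `a` divide `m, n > 0` and let `F, G` be complex polynomials whose
Newton polygons are the trapezoids `T_{m,n}` and `T_{bm/a,bn/a}` and whose bracket is constant.
Let `D ≠ 0` be a polynomial in two variables such that for every `g ∈ ℂ[x, y]` integral over
`ℂ[F, G]` the polynomials `D(F, G) ^ N * [F, g]` and `D(F, G) ^ N * [G, g]` are integral over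
`ℂ[F, G]` for some `N` (that is, the curve `D = 0` contains the branch curve of the integral closure
of `ℂ[F, G]` in `ℂ(x, y)`), and suppose that for some automorphism `Ψ` of `ℂ[x, y]` the curve
`Ψ(D) = 0` is invariant under a nonzero vector field `α(x) ∂_x + (β(x) y + γ(x)) ∂_y`.
Then `[F, G] = 0`. -/
theorem result (a b m n : ℕ) (hm : 0 < m) (hn : 0 < n) (ham : a ∣ m) (han : a ∣ n)
    (hab : Nat.gcd a b = 1) (ha : 2 ≤ a) (hb : 2 ≤ b)
    (F G : MvPolynomial (Fin 2) ℂ)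
    (h1 : convexHull ℝ (insert ((0:ℝ), (0:ℝ))
        ((fun d : Fin 2 →₀ ℕ => ((d 0 : ℝ), (d 1 : ℝ))) '' (↑F.support : Set (Fin 2 →₀ ℕ))))
        = {p : ℝ × ℝ | 0 ≤ p.2 ∧ p.2 ≤ (n : ℝ) ∧ 0 ≤ p.1 ∧ p.1 ≤ (m : ℝ) + (n : ℝ) - p.2})
    (h4 : convexHull ℝ (insert ((0:ℝ), (0:ℝ))
        ((fun d : Fin 2 →₀ ℕ => ((d 0 : ℝ), (d 1 : ℝ))) '' (↑G.support : Set (Fin 2 →₀ ℕ))))
        = {p : ℝ × ℝ | 0 ≤ p.2 ∧ p.2 ≤ ((b * n / a : ℕ) : ℝ) ∧ 0 ≤ p.1 ∧
            p.1 ≤ ((b * m / a : ℕ) : ℝ) + ((b * n / a : ℕ) : ℝ) - p.2})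
    (h5 : ∃ c : ℂ, pderiv 0 F * pderiv 1 G - pderiv 1 F * pderiv 0 G = C c)
    (D : MvPolynomial (Fin 2) ℂ) (hD : D ≠ 0)
    (het : ∀ g : MvPolynomial (Fin 2) ℂ,
      IsIntegral (Algebra.adjoin ℂ ({F, G} : Set (MvPolynomial (Fin 2) ℂ))) g →
      ∃ N : ℕ,
        IsIntegral (Algebra.adjoin ℂ ({F, G} : Set (MvPolynomial (Fin 2) ℂ)))
          (aeval ![F, G] D ^ N * (pderiv 0 F * pderiv 1 g - pderiv 1 F * pderiv 0 g)) ∧
        IsIntegral (Algebra.adjoin ℂ ({F, G} : Set (MvPolynomial (Fin 2) ℂ)))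
          (aeval ![F, G] D ^ N * (pderiv 0 G * pderiv 1 g - pderiv 1 G * pderiv 0 g)))
    (Ψ : MvPolynomial (Fin 2) ℂ ≃ₐ[ℂ] MvPolynomial (Fin 2) ℂ)
    (α β γ : Polynomial ℂ) (hne : α ≠ 0 ∨ β ≠ 0 ∨ γ ≠ 0)
    (hdvd : Ψ D ∣ Polynomial.aeval (X 0) α * pderiv 0 (Ψ D) +
      (Polynomial.aeval (X 0) β * X 1 + Polynomial.aeval (X 0) γ) * pderiv 1 (Ψ D)) :
    pderiv 0 F * pderiv 1 G - pderiv 1 F * pderiv 0 G = 0 := by
  obtain ⟨c, hc⟩ := h5
  by_cases hc0 : c = 0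
  · rw [hc, hc0, map_zero]
  exfalso
  have hr : Set.range ![F, G] = ({F, G} : Set (MvPolynomial (Fin 2) ℂ)) := by
    ext x
    simp only [Set.mem_range, Fin.exists_fin_two, Set.mem_insert_iff, Set.mem_singleton_iff,
      Matrix.cons_val_zero, Matrix.cons_val_one]
    rw [eq_comm (a := F), eq_comm (a := G)]
  have hJ := Pool.Agent.Q96.TZ.det_unit hc0 hc
  have h6 : ∀ z : Pool.Agent.H928R2.Pen.KK ℂ, z ∈ IntermediateField.adjoin ℂ
      {Pool.Agent.H928R2.Pen.ιK ℂ ((![F, G] : Fin 2 → MvPolynomial (Fin 2) ℂ) 0),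
        Pool.Agent.H928R2.Pen.ιK ℂ ((![F, G] : Fin 2 → MvPolynomial (Fin 2) ℂ) 1)} := by
    intro z
    refine Pool.Agent.H928R2.Tri.main_M_aut ![F, G] hJ ⊤ (fun i => trivial) D hD ?_ Ψ α β γ hne
      hdvd z trivial
    intro g _ hg j
    rw [hr] at hg ⊢
    obtain ⟨N, hN0, hN1⟩ := het g hg
    refine ⟨N, ?_⟩
    fin_cases j
    · exact hN0
    · exact hN1
  obtain ⟨F', hF', -⟩ := Pool.Agent.H922R2.inverse_of_top ![F, G] hJ
    (Pool.Agent.H928R2.Tri.top_of_field ![F, G] hJ h6)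
  exact Pool.Agent.Q96.TZ.not_gen a b m n hm hn ham han hab ha hb F G h1 h4 hc0 hc F' hF'

end Pool.Agent.Results.MP_2d59ee_ag.TriangularBranchCurve
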